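import Pool.Agent.X123.MT.Targets
import Pool.Agent.Results.MP_542436_nt.BoxExceptions

/-!
# The truncated Vojta inequality on `ℙ¹ × ℙ¹` for the points near almost every target

Let `D` be the grid with the fibres over `q` rational points of the first factor and over `r ≥ q ≥ 3`
rational points of the second factor. For almost every pair `(ξ, η)` of real numbers, and for almost
all targets in other completions, the proximity of all rational points `P = (x, y)` off `D` to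
`(ξ, η)` is bounded by the truncated counting function of `D`. The points near `(ξ, η)`, for instance
those whose coordinates are convergents, satisfy the inequality of the conjecture without exceptions.
-/

set_option autoImplicit false

namespace Pool.Agent.Results.MP_542436_nt.GridNearTargets

open MeasureTheory
open Pool.Agent.X123.MT (AlmostAllTargets)

/-- Normalised coprime integer coordinates: each point `[x₀ : x₁]` of the projective line over `ℚ`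
has exactly one such pair. -/
def Coord (x : ℤ × ℤ) : Prop := IsCoprime x.1 x.2 ∧ (0 < x.2 ∨ x.2 = 0 ∧ 0 < x.1)

/-- The height `max (|x₀|, |x₁|)`; its logarithm is `h(x)`. -/
def height (x : ℤ × ℤ) : ℕ := max x.1.natAbs x.2.natAbs

/-- `x₀ a₁ - x₁ a₀`, zero if and only if the points `x` and `a` are equal. -/
def wedge (x a : ℤ × ℤ) : ℤ := x.1 * a.2 - x.2 * a.1

/-- The equation of the union of the fibres `s = α_i` (for coprime coordinates of the `α_i`). -/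
def form {q : ℕ} (α : Fin q → ℤ × ℤ) (x : ℤ × ℤ) : ℤ := ∏ i, wedge x (α i)

/-- The truncated counting function `N^(1)_D(P)`, without the primes of `S`: the sum of the
`min (log p, v_p(F(x, y)) log p)` over the primes `p ∉ S`, where `F(x, y) = form α x * form β y` is
the equation of `D` at the point `P = (x, y)`. -/
noncomputable def counting {q r : ℕ} (α : Fin q → ℤ × ℤ) (β : Fin r → ℤ × ℤ) (S : Finset ℕ)
    (P : (ℤ × ℤ) × (ℤ × ℤ)) : ℝ :=
  ∑ p ∈ (form α P.1 * form β P.2).natAbs.primeFactors \ S, Real.log (p : ℝ)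

/-- `P = (x, y)` is a rational point of `ℙ¹ × ℙ¹` off `D` (in normalised coordinates). -/
def OffD {q r : ℕ} (α : Fin q → ℤ × ℤ) (β : Fin r → ℤ × ℤ) (P : (ℤ × ℤ) × (ℤ × ℤ)) : Prop :=
  Coord P.1 ∧ Coord P.2 ∧ form α P.1 * form β P.2 ≠ 0

/-- `h(x) + h(y)` -/
noncomputable def ht (P : (ℤ × ℤ) × (ℤ × ℤ)) : ℝ :=
  Real.log (height P.1) + Real.log (height P.2)

/-- The assertions on the proximities `Λ P` of the points `P` to the targets. -/
def Holds {q r : ℕ} (α : Fin q → ℤ × ℤ) (β : Fin r → ℤ × ℤ) (S : Finset ℕ)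
    (Λ : (ℤ × ℤ) × (ℤ × ℤ) → ℝ) : Prop :=
  ∀ ε : ℝ, 0 < ε → ∃ C : ℝ, ∀ P : (ℤ × ℤ) × (ℤ × ℤ), OffD α β P →
    (r : ℝ) / 2 * Λ P ≤ (r - q) * Real.log (height P.1) +
      max (counting α β S P) ((r - q) * Real.log (height P.2)) + ε * ht P + C ∧
    ((2 - 4 / (r : ℝ)) * ht P ≤ Λ P →
      ((q : ℝ) - 2) * Real.log (height P.1) + (r - 2) * Real.log (height P.2) ≤
        counting α β S P + ε * ht P + C) ∧
    (2 * ht P ≤ Λ P →
      q * Real.log (height P.1) + r * Real.log (height P.2) ≤ counting α β S P + ε * ht P + C)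

theorem log_height_nonneg (x : ℤ × ℤ) : 0 ≤ Real.log (height x) := Real.log_natCast_nonneg _

theorem ht_nonneg (P : (ℤ × ℤ) × (ℤ × ℤ)) : 0 ≤ ht P :=
  add_nonneg (log_height_nonneg _) (log_height_nonneg _)

theorem counting_nonneg {q r : ℕ} (α : Fin q → ℤ × ℤ) (β : Fin r → ℤ × ℤ) (S : Finset ℕ)
    (P : (ℤ × ℤ) × (ℤ × ℤ)) : 0 ≤ counting α β S P :=
  Finset.sum_nonneg fun _ _ => Real.log_natCast_nonneg _

theorem height_pos {x : ℤ × ℤ} (h : Coord x) : 1 ≤ height x := by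
  unfold height
  rcases h.2 with h | ⟨_, h⟩
  · have : 1 ≤ x.2.natAbs := by omega
    exact this.trans (le_max_right _ _)
  · have : 1 ≤ x.1.natAbs := by omega
    exact this.trans (le_max_left _ _)

open Pool.Agent.X123.MT

/-- the points of bounded height sum, from the boxes -/
theorem cnt_of_boxes {A : Set ((ℤ × ℤ) × (ℤ × ℤ))} {e : ℝ} (he : 0 ≤ e)
    (hA : ∀ P ∈ A, Coord P.1 ∧ Coord P.2)
    (h : ∀ δ : ℝ, 0 < δ → ∃ C : ℝ, 0 < C ∧ ∀ B₁ B₂ : ℝ, 1 ≤ B₁ → 1 ≤ B₂ →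
      {P | P ∈ A ∧ (height P.1 : ℝ) ≤ B₁ ∧ (height P.2 : ℝ) ≤ B₂}.Finite ∧
      ({P | P ∈ A ∧ (height P.1 : ℝ) ≤ B₁ ∧ (height P.2 : ℝ) ≤ B₂}.ncard : ℝ) ≤
        C * (B₁ * B₂) ^ (e + δ)) : Cnt A ht e := by
  intro δ hδ
  obtain ⟨C, hC, hbox⟩ := h (δ / 2) (by positivity)
  -- the number of boxes is at most `(⌈t⌉ + 1)`
  obtain ⟨C2, hC2⟩ : ∃ C2 : ℝ, ∀ t : ℝ, 0 ≤ t → t + 2 ≤ C2 * Real.exp (δ / 2 * t) := by
    refine ⟨2 + 2 / δ, fun t ht => ?_⟩
    have h1 := Real.add_one_le_exp (δ / 2 * t)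
    have h2 : (1 : ℝ) ≤ Real.exp (δ / 2 * t) := Real.one_le_exp (by positivity)
    have h3 : t ≤ 2 / δ * Real.exp (δ / 2 * t) := by
      rw [div_mul_eq_mul_div, le_div_iff₀ hδ]
      nlinarith
    rw [add_mul]
    linarith
  refine ⟨C * Real.exp (e + δ / 2) * C2, fun t ht0 => ?_⟩
  obtain ⟨m, hm⟩ : ∃ m : ℕ, m = ⌊t⌋₊ := ⟨_, rfl⟩
  have hmt : (m : ℝ) ≤ t := by rw [hm]; exact Nat.floor_le ht0
  have hsub : {P | P ∈ A ∧ ht P ≤ t} ⊆ ⋃ i ∈ Finset.range (m + 1),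
      {P | P ∈ A ∧ (height P.1 : ℝ) ≤ Real.exp (i + 1) ∧ (height P.2 : ℝ) ≤ Real.exp (t - i)} := by
    rintro P ⟨hP, hPt⟩
    obtain ⟨hc1, hc2⟩ := hA P hP
    have h1 := height_pos hc1
    have h2 := height_pos hc2
    have h1' : (0 : ℝ) < height P.1 := by exact_mod_cast h1
    have h2' : (0 : ℝ) < height P.2 := by exact_mod_cast h2
    have hn1 := log_height_nonneg P.1
    have hn2 := log_height_nonneg P.2
    obtain ⟨i, hi⟩ : ∃ i : ℕ, i = ⌊Real.log (height P.1)⌋₊ := ⟨_, rfl⟩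
    have hi1 : (i : ℝ) ≤ Real.log (height P.1) := by rw [hi]; exact Nat.floor_le hn1
    have hi2 : Real.log (height P.1) < i + 1 := by rw [hi]; exact Nat.lt_floor_add_one _
    have hPt' : Real.log (height P.1) + Real.log (height P.2) ≤ t := hPt
    simp only [Set.mem_iUnion]
    refine ⟨i, Finset.mem_range.2 (Nat.lt_succ_of_le ?_), hP, ?_, ?_⟩
    · rw [hm, hi]
      exact Nat.floor_le_floor (by linarith)
    · exact (Real.log_le_iff_le_exp h1').1 hi2.le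
    · exact (Real.log_le_iff_le_exp h2').1 (by linarith)
  have hb : ∀ i ∈ Finset.range (m + 1),
      {P | P ∈ A ∧ (height P.1 : ℝ) ≤ Real.exp (i + 1) ∧ (height P.2 : ℝ) ≤ Real.exp (t - i)}.Finite ∧
      ({P | P ∈ A ∧ (height P.1 : ℝ) ≤ Real.exp (i + 1) ∧
        (height P.2 : ℝ) ≤ Real.exp (t - i)}.ncard : ℝ) ≤
          C * Real.exp ((e + δ / 2) * (t + 1)) := by
    intro i hi
    have hi' : (i : ℝ) ≤ t := by
      have h1 : (i : ℝ) ≤ m := by exact_mod_cast Nat.lt_succ_iff.1 (Finset.mem_range.1 hi)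
      exact h1.trans hmt
    obtain ⟨h1, h2⟩ := hbox (Real.exp (i + 1)) (Real.exp (t - i))
      (Real.one_le_exp (by positivity)) (Real.one_le_exp (by linarith))
    refine ⟨h1, h2.trans (le_of_eq ?_)⟩
    rw [← Real.exp_add, ← Real.exp_mul]
    congr 2
    ring
  have hfin : (⋃ i ∈ Finset.range (m + 1),
      {P | P ∈ A ∧ (height P.1 : ℝ) ≤ Real.exp (i + 1) ∧
        (height P.2 : ℝ) ≤ Real.exp (t - i)}).Finite :=
    Set.Finite.biUnion (Finset.finite_toSet _) fun i hi => (hb i hi).1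
  refine ⟨hfin.subset hsub, ?_⟩
  have h1 : ({P | P ∈ A ∧ ht P ≤ t}.ncard : ℝ) ≤ ∑ i ∈ Finset.range (m + 1),
      ({P | P ∈ A ∧ (height P.1 : ℝ) ≤ Real.exp (i + 1) ∧
        (height P.2 : ℝ) ≤ Real.exp (t - i)}.ncard : ℝ) := by
    refine le_trans (Nat.cast_le.2 (Set.ncard_le_ncard hsub hfin)) ?_
    exact_mod_cast Finset.set_ncard_biUnion_le _ _
  refine h1.trans ((Finset.sum_le_sum fun i hi => (hb i hi).2).trans ?_)
  rw [Finset.sum_const, Finset.card_range, nsmul_eq_mul]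
  push_cast
  have h2 : (m : ℝ) + 1 ≤ C2 * Real.exp (δ / 2 * t) := by
    have := hC2 t ht0
    linarith
  have h3 : Real.exp ((e + δ / 2) * (t + 1)) = Real.exp (e + δ / 2) * Real.exp ((e + δ / 2) * t) := by
    rw [← Real.exp_add]
    congr 1
    ring
  have h4 : Real.exp ((e + δ) * t) = Real.exp ((e + δ / 2) * t) * Real.exp (δ / 2 * t) := by
    rw [← Real.exp_add]
    congr 1
    ring
  rw [h3, h4]
  calc ((m : ℝ) + 1) * (C * (Real.exp (e + δ / 2) * Real.exp ((e + δ / 2) * t)))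
      ≤ C2 * Real.exp (δ / 2 * t) * (C * (Real.exp (e + δ / 2) * Real.exp ((e + δ / 2) * t))) :=
        mul_le_mul_of_nonneg_right h2 (by positivity)
    _ = _ := by ring

theorem cnt_exc (q r : ℕ) (hq : 3 ≤ q) (hqr : q ≤ r) (α : Fin q → ℤ × ℤ) (β : Fin r → ℤ × ℤ)
    (hαc : ∀ i, IsCoprime (α i).1 (α i).2) (hβc : ∀ j, IsCoprime (β j).1 (β j).2)
    (hα : ∀ i j, i ≠ j → (α i).1 * (α j).2 ≠ (α j).1 * (α i).2)
    (hβ : ∀ i j, i ≠ j → (β i).1 * (β j).2 ≠ (β j).1 * (β i).2) (S : Finset ℕ)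
    (κ c : ℝ) (hκ0 : 0 ≤ κ) (hκ : κ ≤ q) :
    Cnt {P | OffD α β P ∧ counting α β S P <
      ((q : ℝ) - κ) * Real.log (height P.1) + ((r : ℝ) - κ) * Real.log (height P.2) + c} ht
        (2 - 2 * κ / r) := by
  have hr0 : (0 : ℝ) < r := by exact_mod_cast (show 0 < r by omega)
  have hκr : 2 * κ / (r : ℝ) ≤ 2 := by
    rw [div_le_iff₀ hr0]
    have : (q : ℝ) ≤ r := by exact_mod_cast hqr
    linarith
  refine cnt_of_boxes (by linarith) (fun P hP => ⟨hP.1.1, hP.1.2.1⟩) fun δ hδ => ?_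
  obtain ⟨C, hC, hmain⟩ := Pool.Agent.Results.MP_542436_nt.BoxExceptions.result q r hq hqr α β hαc
    hβc hα hβ S κ c δ hκ0 hκ hδ
  refine ⟨C, hC, fun B₁ B₂ hB₁ hB₂ => ?_⟩
  obtain ⟨h1, h2⟩ := hmain B₁ B₂ hB₁ hB₂
  have hsub : {P | P ∈ {P | OffD α β P ∧ counting α β S P <
      ((q : ℝ) - κ) * Real.log (height P.1) + ((r : ℝ) - κ) * Real.log (height P.2) + c} ∧
      (height P.1 : ℝ) ≤ B₁ ∧ (height P.2 : ℝ) ≤ B₂} ⊆
      Pool.Agent.Results.MP_542436_nt.BoxExceptions.Exc α β S κ c B₁ B₂ := by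
    rintro P ⟨⟨⟨hP1, hP2, hP3⟩, hP4⟩, hP5, hP6⟩
    exact ⟨hP1, hP2, hP3, hP5, hP6, hP4⟩
  exact ⟨h1.subset hsub, le_trans (Nat.cast_le.2 (Set.ncard_le_ncard hsub h1)) h2⟩

/-- the number of all points of bounded height -/
theorem cnt_all {q r : ℕ} (α : Fin q → ℤ × ℤ) (β : Fin r → ℤ × ℤ) :
    Cnt {P | OffD α β P} ht 2 := by
  refine cnt_of_boxes (by norm_num) (fun P hP => ⟨hP.1, hP.2.1⟩) fun δ hδ => ?_
  refine ⟨81, by norm_num, fun B₁ B₂ hB₁ hB₂ => ?_⟩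
  obtain ⟨N₁, hN₁⟩ : ∃ N : ℕ, N = ⌊B₁⌋₊ := ⟨_, rfl⟩
  obtain ⟨N₂, hN₂⟩ : ∃ N : ℕ, N = ⌊B₂⌋₊ := ⟨_, rfl⟩
  have hl1 : (N₁ : ℝ) ≤ B₁ := by rw [hN₁]; exact Nat.floor_le (by linarith)
  have hl2 : (N₂ : ℝ) ≤ B₂ := by rw [hN₂]; exact Nat.floor_le (by linarith)
  have hsub : {P | P ∈ {P | OffD α β P} ∧ (height P.1 : ℝ) ≤ B₁ ∧ (height P.2 : ℝ) ≤ B₂} ⊆
      (((Finset.Icc (-(N₁ : ℤ)) N₁ ×ˢ Finset.Icc (-(N₁ : ℤ)) N₁) ×ˢ
        (Finset.Icc (-(N₂ : ℤ)) N₂ ×ˢ Finset.Icc (-(N₂ : ℤ)) N₂) :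
          Finset ((ℤ × ℤ) × (ℤ × ℤ))) : Set ((ℤ × ℤ) × (ℤ × ℤ))) := by
    rintro P ⟨-, h1, h2⟩
    have h3 : height P.1 ≤ N₁ := by rw [hN₁]; exact Nat.le_floor h1
    have h4 : height P.2 ≤ N₂ := by rw [hN₂]; exact Nat.le_floor h2
    unfold height at h3 h4
    have h5 := (le_max_left _ _).trans h3
    have h6 := (le_max_right _ _).trans h3
    have h7 := (le_max_left _ _).trans h4
    have h8 := (le_max_right _ _).trans h4
    simp only [Finset.coe_product, Finset.coe_Icc, Set.mem_prod, Set.mem_Icc]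
    omega
  have hfin := Finset.finite_toSet (((Finset.Icc (-(N₁ : ℤ)) N₁ ×ˢ Finset.Icc (-(N₁ : ℤ)) N₁) ×ˢ
        (Finset.Icc (-(N₂ : ℤ)) N₂ ×ˢ Finset.Icc (-(N₂ : ℤ)) N₂) :
          Finset ((ℤ × ℤ) × (ℤ × ℤ))))
  refine ⟨hfin.subset hsub, ?_⟩
  have h1 := Set.ncard_le_ncard hsub hfin
  rw [Set.ncard_coe_finset] at h1
  simp only [Finset.card_product, Int.card_Icc] at h1
  have e1 : ((N₁ : ℤ) + 1 - -(N₁ : ℤ)).toNat = 2 * N₁ + 1 := by omega
  have e2 : ((N₂ : ℤ) + 1 - -(N₂ : ℤ)).toNat = 2 * N₂ + 1 := by omega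
  rw [e1, e2] at h1
  have h2 : (({P | P ∈ {P | OffD α β P} ∧ (height P.1 : ℝ) ≤ B₁ ∧
      (height P.2 : ℝ) ≤ B₂}.ncard : ℕ) : ℝ) ≤
      ((2 * N₁ + 1) * (2 * N₁ + 1)) * ((2 * N₂ + 1) * (2 * N₂ + 1)) := by
    exact_mod_cast h1
  refine h2.trans ?_
  have h3 : 2 * (N₁ : ℝ) + 1 ≤ 3 * B₁ := by linarith
  have h4 : 2 * (N₂ : ℝ) + 1 ≤ 3 * B₂ := by linarith
  have hB : 1 ≤ B₁ * B₂ := one_le_mul_of_one_le_of_one_le hB₁ hB₂
  calc ((2 * (N₁ : ℝ) + 1) * (2 * N₁ + 1)) * ((2 * N₂ + 1) * (2 * N₂ + 1))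
      ≤ ((3 * B₁) * (3 * B₁)) * ((3 * B₂) * (3 * B₂)) := by gcongr
    _ = 81 * (B₁ * B₂) ^ (2 : ℝ) := by
        rw [Real.rpow_two]
        ring
    _ ≤ 81 * (B₁ * B₂) ^ (2 + δ) := by
        apply mul_le_mul_of_nonneg_left _ (by norm_num)
        exact Real.rpow_le_rpow_of_exponent_le hB (by linarith)

theorem holds_of_generic (q r : ℕ) (hq : 3 ≤ q) (hqr : q ≤ r) (α : Fin q → ℤ × ℤ)
    (β : Fin r → ℤ × ℤ) (hαc : ∀ i, IsCoprime (α i).1 (α i).2)
    (hβc : ∀ j, IsCoprime (β j).1 (β j).2)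
    (hα : ∀ i j, i ≠ j → (α i).1 * (α j).2 ≠ (α j).1 * (α i).2)
    (hβ : ∀ i j, i ≠ j → (β i).1 * (β j).2 ≠ (β j).1 * (β i).2) (S : Finset ℕ)
    (Y : Type) [MeasurableSpace Y] (μ : Measure Y) (L : (ℤ × ℤ) × (ℤ × ℤ) → Y → ℝ)
    (hL : Generic μ L) : ∀ᵐ y ∂μ, Holds α β S (fun P => L P y) := by
  have hqR : (3 : ℝ) ≤ q := by exact_mod_cast hq
  have hqrR : (q : ℝ) ≤ r := by exact_mod_cast hqr
  have hr0 : (0 : ℝ) < r := by linarith
  have hmain := grid hL {P | OffD α β P}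
    (fun P => 2 / r * (counting α β S P + (r - q) * Real.log (height P.1))) ht ht_nonneg
    (q := 2) (κ1 := 2 * q / r) (by positivity) (cnt_all α β) (fun κ hκ0 hκ1 => by
      have h1 : r * κ / 2 ≤ q := by
        rw [le_div_iff₀ hr0] at hκ1
        linarith
      have h2 := cnt_exc q r hq hqr α β hαc hβc hα hβ S (r * κ / 2) 0 (by positivity) h1
      have h3 : 2 - 2 * (r * κ / 2) / r = 2 - κ := by field_simp
      rw [h3] at h2
      intro δ hδ
      obtain ⟨C, hC⟩ := h2 δ hδ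
      refine ⟨C, fun t ht' => ?_⟩
      obtain ⟨h4, h5⟩ := hC t ht'
      have hsub : {x | x ∈ {x | x ∈ {P | OffD α β P} ∧
          2 / r * (counting α β S x + (r - q) * Real.log (height x.1)) < (2 - κ) * ht x} ∧
          ht x ≤ t} ⊆ {x | x ∈ {P | OffD α β P ∧ counting α β S P <
          ((q : ℝ) - r * κ / 2) * Real.log (height P.1) +
            ((r : ℝ) - r * κ / 2) * Real.log (height P.2) + 0} ∧ ht x ≤ t} := by
        rintro P ⟨⟨hP, hP2⟩, hP3⟩
        refine ⟨⟨hP, ?_⟩, hP3⟩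
        have h6 := mul_lt_mul_of_pos_left hP2 (by positivity : (0 : ℝ) < r / 2)
        have h7 : (r : ℝ) / 2 * (2 / r * (counting α β S P + (r - q) * Real.log (height P.1))) =
            counting α β S P + (r - q) * Real.log (height P.1) := by field_simp
        rw [h7] at h6
        unfold ht at h6
        linarith
      exact ⟨h4.subset hsub, le_trans (Nat.cast_le.2 (Set.ncard_le_ncard hsub h4)) h5⟩)
    (by rw [div_le_iff₀ hr0]; linarith)
  filter_upwards [hmain] with y hy ε hε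
  obtain ⟨C, hC⟩ := hy (2 / r * min ε (1 / 2)) (by positivity)
  obtain ⟨D, hD⟩ : ∃ D : ℝ, D = r / 2 * |C| := ⟨_, rfl⟩
  have hD0 : 0 ≤ D := by rw [hD]; positivity
  refine ⟨D + 2 * r * D, fun P hP => ?_⟩
  have h1 := hC P hP
  have hh := ht_nonneg P
  have ha := log_height_nonneg P.1
  have hb := log_height_nonneg P.2
  have hN := counting_nonneg α β S P
  obtain ⟨a, haa⟩ : ∃ a : ℝ, a = Real.log (height P.1) := ⟨_, rfl⟩
  obtain ⟨b, hbb⟩ : ∃ b : ℝ, b = Real.log (height P.2) := ⟨_, rfl⟩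
  obtain ⟨N, hNN⟩ : ∃ N : ℝ, N = counting α β S P := ⟨_, rfl⟩
  have hht : ht P = a + b := by rw [haa, hbb]; rfl
  rw [← haa] at ha
  rw [← hbb] at hb
  rw [← hNN] at hN
  rw [← haa, ← hNN, hht] at h1
  rw [← haa, ← hbb, ← hNN, hht]
  have hmin0 : (0 : ℝ) < min ε (1 / 2) := by positivity
  have hmin1 : min ε (1 / 2) ≤ ε := min_le_left _ _
  have hmin2 : min ε (1 / 2) ≤ 1 / 2 := min_le_right _ _
  -- the main inequality
  have h2 : (r : ℝ) / 2 * L P y ≤ (r - q) * a + max N ((r - q) * b) +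
      min ε (1 / 2) * (a + b) + D := by
    have h3 := mul_le_mul_of_nonneg_left h1 (by positivity : (0 : ℝ) ≤ r / 2)
    have h4 : (r : ℝ) / 2 * (max (2 / r * (N + (r - q) * a) - (2 - 2) * (a + b))
        ((2 - 2 * q / r) * (a + b)) + 2 / r * min ε (1 / 2) * (a + b) + C) =
        max (N + (r - q) * a) ((r - q) * (a + b)) + min ε (1 / 2) * (a + b) + r / 2 * C := by
      rw [mul_add, mul_add, mul_max_of_nonneg _ _ (by positivity : (0 : ℝ) ≤ r / 2)]
      congr 2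
      · congr 1
        · field_simp
          ring
        · field_simp
      · field_simp
    rw [h4] at h3
    have h5 : max (N + (r - q) * a) ((r - q) * (a + b)) = (r - q) * a + max N ((r - q) * b) := by
      rw [← max_add_add_left]
      congr 1 <;> ring
    rw [h5] at h3
    have h6 : r / 2 * C ≤ D := by
      rw [hD]
      exact mul_le_mul_of_nonneg_left (le_abs_self C) (by positivity)
    linarith
  have hεab : min ε (1 / 2) * (a + b) ≤ ε * (a + b) :=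
    mul_le_mul_of_nonneg_right hmin1 (by linarith)
  have hεab2 : min ε (1 / 2) * (a + b) ≤ 1 / 2 * (a + b) :=
    mul_le_mul_of_nonneg_right hmin2 (by linarith)
  have hrD : 0 ≤ 2 * r * D := by positivity
  have hεab0 : 0 ≤ ε * (a + b) := by positivity
  refine ⟨by linarith, fun h => ?_, fun h => ?_⟩
  · have h3 := mul_le_mul_of_nonneg_left h (by positivity : (0 : ℝ) ≤ r / 2)
    have h4 : (r : ℝ) / 2 * ((2 - 4 / r) * (a + b)) = (r - 2) * (a + b) := by
      field_simp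
      ring
    rw [h4] at h3
    rcases le_total ((r - q) * b) N with hle | hle
    · rw [max_eq_left hle] at h2
      linarith
    · rw [max_eq_right hle] at h2
      -- the height is bounded
      have h5 : (a + b) / 2 ≤ D := by nlinarith
      have h6 : ((q : ℝ) - 2) * a + (r - 2) * b ≤ r * (a + b) := by nlinarith
      have h7 : (r : ℝ) * (a + b) ≤ 2 * r * D := by nlinarith
      linarith
  · have h3 := mul_le_mul_of_nonneg_left h (by positivity : (0 : ℝ) ≤ r / 2)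
    have h4 : (r : ℝ) / 2 * (2 * (a + b)) = r * (a + b) := by ring
    rw [h4] at h3
    rcases le_total ((r - q) * b) N with hle | hle
    · rw [max_eq_left hle] at h2
      linarith
    · rw [max_eq_right hle] at h2
      have h5 : (a + b) / 2 ≤ D := by nlinarith
      have h6 : (q : ℝ) * a + r * b ≤ r * (a + b) := by nlinarith
      have h7 : (r : ℝ) * (a + b) ≤ 2 * r * D := by nlinarith
      linarith

/-- **The truncated inequality of Vojta on `ℙ¹ × ℙ¹` near almost every target.** Let `3 ≤ q ≤ r`, let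
`α_1, …, α_q` and `β_1, …, β_r` be distinct points of the projective line over `ℚ`, `D` the divisor of
the fibres over them, of bidegree `(q, r)`, and `S` a finite set of primes.

(1) For almost all `(ξ_0, ξ_1) ∈ ℝ ^ 2` and all `ε > 0` there is `C` such that for ALL rational points
`P = (x, y)` off `D` the proximity `Λ = log⁺ (1 / |ξ_0 - x|) + log⁺ (1 / |ξ_1 - y|)` satisfies
`(r / 2) Λ ≤ (r - q) h(x) + max (N^(1)_D(P), (r - q) h(y)) + ε (h(x) + h(y)) + C`;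
if `Λ ≥ (2 - 4 / r) (h(x) + h(y))`, the inequality
`(q - 2) h(x) + (r - 2) h(y) ≤ N^(1)_D(P) + ε (h(x) + h(y)) + C` of the conjecture holds; if
`Λ ≥ 2 (h(x) + h(y))` (for instance if `x` and `y` are convergents), even
`q h(x) + r h(y) ≤ N^(1)_D(P) + ε (h(x) + h(y)) + C`.

(2) The same for almost all targets in finitely many metric spaces, see `AlmostAllTargets`.

(3) For `0 ≤ κ ≤ q`, `c` real, every map `s` of the points to a metric space and every `τ > 0` the set of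
the `z` with `|z - s(P)| ≤ exp (- τ (h(x) + h(y)))` for infinitely many `P` with
`N^(1)_D(P) < (q - κ) h(x) + (r - κ) h(y) + c` (exceptions for `κ = 2`) has Hausdorff dimension at
most `(2 - 2 κ / r) / τ`. -/
theorem result (q r : ℕ) (hq : 3 ≤ q) (hqr : q ≤ r) (α : Fin q → ℤ × ℤ) (β : Fin r → ℤ × ℤ)
    (hαc : ∀ i, IsCoprime (α i).1 (α i).2) (hβc : ∀ j, IsCoprime (β j).1 (β j).2)
    (hα : ∀ i j, i ≠ j → (α i).1 * (α j).2 ≠ (α j).1 * (α i).2)
    (hβ : ∀ i j, i ≠ j → (β i).1 * (β j).2 ≠ (β j).1 * (β i).2) (S : Finset ℕ) :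
    (∀ᵐ ξ : Fin 2 → ℝ, Holds α β S (fun P => ∑ i, max 0 (Real.log (1 /
      |ξ i - (![((P.1.1 : ℝ) / P.1.2), ((P.2.1 : ℝ) / P.2.2)] : Fin 2 → ℝ) i|)))) ∧
    AlmostAllTargets (Holds α β S) ∧
    ∀ κ c : ℝ, 0 ≤ κ → κ ≤ q → ∀ (X : Type) [MetricSpace X] (s : (ℤ × ℤ) × (ℤ × ℤ) → X) (τ : ℝ),
      0 < τ → dimH {z : X | {P | (OffD α β P ∧ counting α β S P <
        ((q : ℝ) - κ) * Real.log (height P.1) + ((r : ℝ) - κ) * Real.log (height P.2) + c) ∧
          dist z (s P) ≤ Real.exp (-(τ * ht P))}.Infinite} ≤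
            ENNReal.ofReal ((2 - 2 * κ / r) / τ) := by
  have hr0 : (0 : ℝ) < r := by exact_mod_cast (show 0 < r by omega)
  have h1 : AlmostAllTargets (Holds α β S) :=
    almostAllTargets_of _ (holds_of_generic q r hq hqr α β hαc hβc hα hβ S)
  refine ⟨real_targets _ h1 2
    (fun i P => (![((P.1.1 : ℝ) / P.1.2), ((P.2.1 : ℝ) / P.2.2)] : Fin 2 → ℝ) i), h1,
    fun κ c hκ0 hκ X _ s τ hτ => ?_⟩
  have hκr : 2 * κ / (r : ℝ) ≤ 2 := by
    rw [div_le_iff₀ hr0]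
    have : (q : ℝ) ≤ r := by exact_mod_cast hqr
    linarith
  exact dim_le _ _ (fun P _ => ht_nonneg P) (by linarith) hτ
    (cnt_exc q r hq hqr α β hαc hβc hα hβ S κ c hκ0 hκ) s

end Pool.Agent.Results.MP_542436_nt.GridNearTargets
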