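import Pool.Agent.Results.MP_542436_nt.BoxExceptions
import Pool.Agent.X174.WinQ

/-!
# The truncated Vojta inequality on `ℙ¹ × ℙ¹` for ALL points with coordinates in cubes

Let `v ≥ 1` be a sequence of exponent of convergence at most `τ` (for `v_i = (i + 1) ^ a` this is `1 / a`, for `v_i = b ^ i`
it is `0`), `ρ < 1`, `3 ≤ q ≤ r` and `0 ≤ κ ≤ q`. Outside ONE set of `z ∈ ℝ⁴` of Hausdorff dimension at most
`(4 - 4 κ / r + τ) / (1 - ρ)` the following holds for ALL grids `D ⊂ ℙ¹ × ℙ¹` of `q` fibres `s = α_i` and `r` fibres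
`t = β_j` over rational points, all finite sets `S` of primes and all real `c`: for all but finitely many `i`, ALL points
`P = ([x_0 : x_1], [y_0 : y_1])` off `D` with coprime integral coordinates `(x_0, x_1, y_0, y_1)` in the cube of centre `v_i z`
and half side `v_i ^ ρ` satisfy `N^(1)_D(P) ≥ (q - κ) h(x) + (r - κ) h(y) + c`, even without the primes of `S`. For `κ = 2`
this is the inequality of the conjecture, without its `ε` and with any constant: for each `C` it has only finitely many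
exceptions in the union of these cubes.

The number of exceptions is from the starting result `BoxExceptions`.
-/

set_option autoImplicit false

namespace Pool.Agent.Results.MP_542436_nt.PointsInCubes

open BoxExceptions (Coord height wedge form trunc Exc)

/-- the exponent of convergence of the sequence `v` is at most `τ` -/
def ExpLe (v : ℕ → ℝ) (τ : ℝ) : Prop := ∀ t : ℝ, τ < t → Summable (fun n : ℕ => (v n) ^ (-t))

theorem coord_or {x : ℤ × ℤ} (hx : IsCoprime x.1 x.2) : ∃ σ : ℤ, (σ = 1 ∨ σ = -1) ∧ Coord (σ * x.1, σ * x.2) := by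
  rcases lt_trichotomy x.2 0 with h | h | h
  · refine ⟨-1, Or.inr rfl, ?_, Or.inl ?_⟩
    · simpa using hx.neg_left.neg_right
    · simp only [neg_mul, one_mul]
      omega
  · rcases lt_trichotomy x.1 0 with h1 | h1 | h1
    · refine ⟨-1, Or.inr rfl, ?_, Or.inr ⟨?_, ?_⟩⟩
      · simpa using hx.neg_left.neg_right
      · simp [h]
      · simp only [neg_mul, one_mul]
        omega
    · exfalso
      rw [h, h1] at hx
      exact not_isCoprime_zero_zero hx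
    · exact ⟨1, Or.inl rfl, by simpa using hx, Or.inr ⟨by simpa using h, by simpa using h1⟩⟩
  · exact ⟨1, Or.inl rfl, by simpa using hx, Or.inl (by simpa using h)⟩

theorem form_mul {q : ℕ} (α : Fin q → ℤ × ℤ) (σ : ℤ) (x : ℤ × ℤ) :
    form α (σ * x.1, σ * x.2) = σ ^ q * form α x := by
  unfold form wedge
  have h : ∀ i, σ * x.1 * (α i).2 - σ * x.2 * (α i).1 = σ * (x.1 * (α i).2 - x.2 * (α i).1) := fun i => by ring
  simp only [h, Finset.prod_mul_distrib, Finset.prod_const, Finset.card_univ, Fintype.card_fin]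

theorem abs_pow_one {σ : ℤ} (h : σ = 1 ∨ σ = -1) (q : ℕ) : (σ ^ q).natAbs = 1 := by
  rcases h with rfl | rfl
  · simp
  · simp [Int.natAbs_pow]

theorem height_mul {σ : ℤ} (h : σ = 1 ∨ σ = -1) (x : ℤ × ℤ) : height (σ * x.1, σ * x.2) = height x := by
  rcases h with rfl | rfl <;> simp [height]

/-- the exceptions with coordinates of any sign -/
def ExcAll {q r : ℕ} (α : Fin q → ℤ × ℤ) (β : Fin r → ℤ × ℤ) (S : Finset ℕ) (κ c T : ℝ) :
    Set ((ℤ × ℤ) × (ℤ × ℤ)) :=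
  {P | IsCoprime P.1.1 P.1.2 ∧ IsCoprime P.2.1 P.2.2 ∧ form α P.1 * form β P.2 ≠ 0 ∧
    (height P.1 : ℝ) ≤ T ∧ (height P.2 : ℝ) ≤ T ∧
    trunc S (form α P.1 * form β P.2) <
      ((q : ℝ) - κ) * Real.log (height P.1) + ((r : ℝ) - κ) * Real.log (height P.2) + c}

/-- change of signs -/
def sg (s : ℤ × ℤ) (P : (ℤ × ℤ) × (ℤ × ℤ)) : (ℤ × ℤ) × (ℤ × ℤ) :=
  ((s.1 * P.1.1, s.1 * P.1.2), (s.2 * P.2.1, s.2 * P.2.2))

theorem excAll_subset {q r : ℕ} (α : Fin q → ℤ × ℤ) (β : Fin r → ℤ × ℤ) (S : Finset ℕ) (κ c T : ℝ) :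
    ExcAll α β S κ c T ⊆ ⋃ s ∈ (({1, -1} ×ˢ {1, -1} : Finset (ℤ × ℤ)) : Set (ℤ × ℤ)), sg s '' Exc α β S κ c T T := by
  rintro P ⟨h1, h2, h3, h4, h5, h6⟩
  obtain ⟨σ, hσ, hc1⟩ := coord_or h1
  obtain ⟨ν, hν, hc2⟩ := coord_or h2
  have hσ2 : σ * σ = 1 := by rcases hσ with rfl | rfl <;> norm_num
  have hν2 : ν * ν = 1 := by rcases hν with rfl | rfl <;> norm_num
  simp only [Set.mem_iUnion]
  refine ⟨(σ, ν), ?_, ((σ * P.1.1, σ * P.1.2), (ν * P.2.1, ν * P.2.2)), ⟨hc1, hc2, ?_, ?_, ?_, ?_⟩, ?_⟩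
  · rw [Finset.mem_coe, Finset.mem_product]
    simpa using ⟨hσ, hν⟩
  · rw [form_mul α σ P.1, form_mul β ν P.2]
    intro h
    have h7 : (σ ^ q * ν ^ r) * (form α P.1 * form β P.2) = 0 := by
      rw [← h]
      ring
    rcases mul_eq_zero.1 h7 with h8 | h8
    · have h9 := congrArg Int.natAbs h8
      rw [Int.natAbs_mul, abs_pow_one hσ, abs_pow_one hν] at h9
      norm_num at h9
    · exact h3 h8
  · rw [height_mul hσ]
    exact h4
  · rw [height_mul hν]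
    exact h5
  · have h7 : trunc S (form α (σ * P.1.1, σ * P.1.2) * form β (ν * P.2.1, ν * P.2.2)) =
        trunc S (form α P.1 * form β P.2) := by
      unfold trunc
      rw [form_mul α σ P.1, form_mul β ν P.2]
      congr 3
      rw [Int.natAbs_mul, Int.natAbs_mul, Int.natAbs_mul, Int.natAbs_mul, abs_pow_one hσ, abs_pow_one hν]
      ring
    show trunc S (form α (σ * P.1.1, σ * P.1.2) * form β (ν * P.2.1, ν * P.2.2)) < _
    rw [h7, height_mul hσ, height_mul hν]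
    exact h6
  · unfold sg
    simp only
    refine Prod.ext (Prod.ext ?_ ?_) (Prod.ext ?_ ?_)
    · show σ * (σ * P.1.1) = P.1.1
      rw [← mul_assoc, hσ2, one_mul]
    · show σ * (σ * P.1.2) = P.1.2
      rw [← mul_assoc, hσ2, one_mul]
    · show ν * (ν * P.2.1) = P.2.1
      rw [← mul_assoc, hν2, one_mul]
    · show ν * (ν * P.2.2) = P.2.2
      rw [← mul_assoc, hν2, one_mul]

theorem excAll_card {q r : ℕ} (α : Fin q → ℤ × ℤ) (β : Fin r → ℤ × ℤ) (S : Finset ℕ) (κ c T : ℝ)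
    (hf : (Exc α β S κ c T T).Finite) :
    (ExcAll α β S κ c T).Finite ∧ (ExcAll α β S κ c T).ncard ≤ 4 * (Exc α β S κ c T T).ncard := by
  classical
  have h1 : (⋃ s ∈ (({1, -1} ×ˢ {1, -1} : Finset (ℤ × ℤ)) : Set (ℤ × ℤ)), sg s '' Exc α β S κ c T T).Finite :=
    Set.Finite.biUnion (Finset.finite_toSet _) fun s _ => hf.image _
  refine ⟨h1.subset (excAll_subset α β S κ c T), (Set.ncard_le_ncard (excAll_subset α β S κ c T) h1).trans ?_⟩
  have h2 : (⋃ s ∈ (({1, -1} ×ˢ {1, -1} : Finset (ℤ × ℤ)) : Set (ℤ × ℤ)), sg s '' Exc α β S κ c T T) =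
      ((({1, -1} ×ˢ {1, -1} : Finset (ℤ × ℤ)).biUnion fun s => (hf.image (sg s)).toFinset : Finset _) :
        Set ((ℤ × ℤ) × (ℤ × ℤ))) := by
    rw [Finset.coe_biUnion]
    simp only [Set.Finite.coe_toFinset]
  rw [h2, Set.ncard_coe_finset]
  refine Finset.card_biUnion_le.trans ?_
  calc ∑ s ∈ ({1, -1} ×ˢ {1, -1} : Finset (ℤ × ℤ)), (hf.image (sg s)).toFinset.card
      ≤ ∑ s ∈ ({1, -1} ×ˢ {1, -1} : Finset (ℤ × ℤ)), (Exc α β S κ c T T).ncard := by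
        refine Finset.sum_le_sum fun s _ => ?_
        rw [← Set.ncard_eq_toFinset_card _ (hf.image (sg s))]
        exact Set.ncard_image_le hf
    _ = 4 * (Exc α β S κ c T T).ncard := by
        rw [Finset.sum_const, smul_eq_mul]
        congr 1

/-- **Theorem.** Let `3 ≤ q ≤ r`, `0 ≤ κ ≤ q`. For every sequence `v ≥ 1` of exponent of convergence at most `τ ≥ 0` and
every `ρ < 1` there is a set `E ⊂ ℝ⁴` of Hausdorff dimension at most `(4 - 4 κ / r + τ) / (1 - ρ)` such that for each `z`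
outside `E`, all `α_1, …, α_q` and all `β_1, …, β_r`, distinct points of the projective line over `ℚ`, all finite sets `S` of
primes and all real `c` there is `i₀` such that for all `i ≥ i₀` ALL points `([x_0 : x_1], [y_0 : y_1])` off the grid, with
coprime integers `x_0, x_1` and coprime integers `y_0, y_1`, the vector `(x_0, x_1, y_0, y_1)` in the cube of centre `v_i z` and
half side `v_i ^ ρ`, satisfy `N^(1)(P) ≥ (q - κ) h(x) + (r - κ) h(y) + c`; the truncated counting function `N^(1)` is that of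
the grid, without the primes of `S`. The sequences `v_i = (i + 1) ^ a` and `v_i = b ^ i` have exponent of convergence at most
`1 / a` and `0`. -/
theorem result :
    (∀ q r : ℕ, 3 ≤ q → q ≤ r → ∀ κ : ℝ, 0 ≤ κ → κ ≤ q →
      ∀ (v : ℕ → ℝ) (τ ρ : ℝ), (∀ i, 1 ≤ v i) → 0 ≤ τ → ExpLe v τ → ρ < 1 →
      ∃ E : Set (Fin 4 → ℝ), dimH E ≤ ENNReal.ofReal ((4 - 4 * κ / r + τ) / (1 - ρ)) ∧
        ∀ z : Fin 4 → ℝ, z ∉ E → ∀ (α : Fin q → ℤ × ℤ) (β : Fin r → ℤ × ℤ),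
          (∀ i, IsCoprime (α i).1 (α i).2) → (∀ j, IsCoprime (β j).1 (β j).2) →
          (∀ i j, i ≠ j → (α i).1 * (α j).2 ≠ (α j).1 * (α i).2) →
          (∀ i j, i ≠ j → (β i).1 * (β j).2 ≠ (β j).1 * (β i).2) → ∀ (S : Finset ℕ) (c : ℝ),
          ∃ i₀ : ℕ, ∀ i : ℕ, i₀ ≤ i → ∀ x y : ℤ × ℤ, IsCoprime x.1 x.2 → IsCoprime y.1 y.2 →
            form α x * form β y ≠ 0 →
            |(x.1 : ℝ) - z 0 * v i| ≤ (v i) ^ ρ → |(x.2 : ℝ) - z 1 * v i| ≤ (v i) ^ ρ →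
            |(y.1 : ℝ) - z 2 * v i| ≤ (v i) ^ ρ → |(y.2 : ℝ) - z 3 * v i| ≤ (v i) ^ ρ →
            ((q : ℝ) - κ) * Real.log (height x) + ((r : ℝ) - κ) * Real.log (height y) + c ≤
              trunc S (form α x * form β y)) ∧
    (∀ a : ℝ, 0 < a → ExpLe (fun n : ℕ => ((n : ℝ) + 1) ^ a) (1 / a)) ∧
    (∀ b : ℝ, 1 < b → ExpLe (fun n : ℕ => b ^ n) 0) := by
  refine ⟨fun q r hq hqr κ hκ0 hκ v τ ρ hv hτ hE hρ => ?_, fun κ hκ => Pool.Agent.Y854.GM.expLe_pow κ hκ,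
    fun b hb => Pool.Agent.Y854.GM.expLe_geom b hb⟩
  have hr3 : (3 : ℝ) ≤ r := by exact_mod_cast hq.trans hqr
  have hqr' : (q : ℝ) ≤ r := by exact_mod_cast hqr
  have hs : 0 ≤ 4 - 4 * κ / (r : ℝ) := by
    have : 4 * κ / (r : ℝ) ≤ 4 := by
      rw [div_le_iff₀ (by linarith)]
      linarith
    linarith
  set h : (ℤ × ℤ) × (ℤ × ℤ) → Fin 4 → ℝ := fun P => ![(P.1.1 : ℝ), (P.1.2 : ℝ), (P.2.1 : ℝ), (P.2.2 : ℝ)] with hh
  have key : ∀ D : (Fin q → ℤ × ℤ) × (Fin r → ℤ × ℤ) × Finset ℕ × ℕ, ∃ E : Set (Fin 4 → ℝ),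
      dimH E ≤ ENNReal.ofReal ((4 - 4 * κ / r + τ) / (1 - ρ)) ∧
      ((∀ i, IsCoprime (D.1 i).1 (D.1 i).2) → (∀ j, IsCoprime (D.2.1 j).1 (D.2.1 j).2) →
        (∀ i j, i ≠ j → (D.1 i).1 * (D.1 j).2 ≠ (D.1 j).1 * (D.1 i).2) →
        (∀ i j, i ≠ j → (D.2.1 i).1 * (D.2.1 j).2 ≠ (D.2.1 j).1 * (D.2.1 i).2) →
        ∀ z : Fin 4 → ℝ, z ∉ E → ∀ R : ℕ, 1 ≤ R → ∃ i₀ : ℕ, ∀ i : ℕ, i₀ ≤ i → ∀ P : (ℤ × ℤ) × (ℤ × ℤ),
          (∀ j, |h P j - z j * v i| ≤ (v i) ^ ρ) → P ∉ ExcAll D.1 D.2.1 D.2.2.1 κ D.2.2.2 (R * v i)) := by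
    intro D
    by_cases hD : (∀ i, IsCoprime (D.1 i).1 (D.1 i).2) ∧ (∀ j, IsCoprime (D.2.1 j).1 (D.2.1 j).2) ∧
        (∀ i j, i ≠ j → (D.1 i).1 * (D.1 j).2 ≠ (D.1 j).1 * (D.1 i).2) ∧
        (∀ i j, i ≠ j → (D.2.1 i).1 * (D.2.1 j).2 ≠ (D.2.1 j).1 * (D.2.1 i).2)
    · obtain ⟨hD1, hD2, hD3, hD4⟩ := hD
      obtain ⟨E, hE1, hE2⟩ := Pool.Agent.X174.winFamE (κ := Fin 4) (Q := (ℤ × ℤ) × (ℤ × ℤ)) h
        (fun T => ExcAll D.1 D.2.1 D.2.2.1 κ D.2.2.2 T) (s := 4 - 4 * κ / (r : ℝ)) hs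
        (fun ε hε => by
          obtain ⟨C, hC, hC2⟩ := BoxExceptions.result q r hq hqr D.1 D.2.1 hD1 hD2 hD3 hD4 D.2.2.1 κ D.2.2.2 (ε / 2)
            hκ0 hκ (by positivity)
          refine ⟨4 * C, fun T hT => ?_⟩
          obtain ⟨h1, h2⟩ := hC2 T T hT hT
          obtain ⟨h3, h4⟩ := excAll_card D.1 D.2.1 D.2.2.1 κ D.2.2.2 T h1
          refine ⟨h3, ?_⟩
          have h5 : ((ExcAll D.1 D.2.1 D.2.2.1 κ D.2.2.2 T).ncard : ℝ) ≤
              4 * ((Exc D.1 D.2.1 D.2.2.1 κ D.2.2.2 T T).ncard : ℝ) := by exact_mod_cast h4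
          have h6 : (T * T) ^ (2 - 2 * κ / (r : ℝ) + ε / 2) = T ^ (4 - 4 * κ / (r : ℝ) + ε) := by
            have h7 : T * T = T ^ (2 : ℝ) := by rw [Real.rpow_two, sq]
            rw [h7, ← Real.rpow_mul (by linarith)]
            congr 1
            ring
          calc ((ExcAll D.1 D.2.1 D.2.2.1 κ D.2.2.2 T).ncard : ℝ)
              ≤ 4 * ((Exc D.1 D.2.1 D.2.2.1 κ D.2.2.2 T T).ncard : ℝ) := h5
            _ ≤ 4 * (C * (T * T) ^ (2 - 2 * κ / (r : ℝ) + ε / 2)) := by linarith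
            _ = 4 * C * T ^ (4 - 4 * κ / (r : ℝ) + ε) := by rw [h6]; ring)
        hv hτ hE hρ
      exact ⟨E, hE1, fun _ _ _ _ => hE2⟩
    · exact ⟨∅, by simp, fun h1 h2 h3 h4 => absurd ⟨h1, h2, h3, h4⟩ hD⟩
  choose E hE1 hE2 using key
  refine ⟨⋃ D, E D, ?_, fun z hz α β hα hβ hα2 hβ2 S c => ?_⟩
  · rw [dimH_iUnion]
    exact iSup_le hE1
  have hz' : ∀ D, z ∉ E D := fun D hD => hz (Set.mem_iUnion.2 ⟨D, hD⟩)
  obtain ⟨R, hR, hRc⟩ := Pool.Agent.X174.le_of_cube z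
  obtain ⟨c', hc'⟩ := exists_nat_ge c
  obtain ⟨i₀, hi₀⟩ := hE2 (α, β, S, c') hα hβ hα2 hβ2 z (hz' _) R hR
  refine ⟨i₀, fun i hi x y hx hy hxy h0 h1 h2 h3 => ?_⟩
  have hcube : ∀ j, |h (x, y) j - z j * v i| ≤ (v i) ^ ρ := by
    intro j
    fin_cases j
    · simpa [hh] using h0
    · simpa [hh] using h1
    · simpa [hh] using h2
    · simpa [hh] using h3
  by_contra hcon
  push Not at hcon
  have hb := hRc _ (v i) ρ (hv i) hρ hcube
  have hb0 : |(x.1 : ℝ)| ≤ R * v i := by simpa [hh] using hb 0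
  have hb1 : |(x.2 : ℝ)| ≤ R * v i := by simpa [hh] using hb 1
  have hb2 : |(y.1 : ℝ)| ≤ R * v i := by simpa [hh] using hb 2
  have hb3 : |(y.2 : ℝ)| ≤ R * v i := by simpa [hh] using hb 3
  have hht : ∀ u : ℤ × ℤ, |(u.1 : ℝ)| ≤ R * v i → |(u.2 : ℝ)| ≤ R * v i → (height u : ℝ) ≤ R * v i := by
    intro u hu1 hu2
    unfold height
    rw [Nat.cast_max, max_le_iff, Nat.cast_natAbs, Nat.cast_natAbs]
    push_cast
    exact ⟨hu1, hu2⟩
  exact hi₀ i hi (x, y) hcube ⟨hx, hy, hxy, hht x hb0 hb1, hht y hb2 hb3, hcon.trans_le (by linarith)⟩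

end Pool.Agent.Results.MP_542436_nt.PointsInCubes
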