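import Pool.Agent.X100.NK.Pencil

/-!
# The truncated inequality of Vojta on the product of two lines: points of any height on rational
curves and on pencils

`K` is a number field and `D : F = 0` a divisor of bidegree `(q, r)` on the product of two lines, `F`
with coefficients in the ring of integers. The points with `N^(1)_D ≤ log R`, of whatever height, are
counted (1) on rational curves, for rational parameters, (2) by the members of a pencil of curves,
some members of which lie in `D`: for `K = ℚ` all the points off `D` are considered, and they lie on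
few members of the pencil, (3) if `D` contains fibres of both projections.
-/

set_option autoImplicit false

namespace Pool.Agent.Results.MP_542436_nt.RationalCurvesAllHeights

open NumberField IsDedekindDomain Finset Polynomial

variable {K : Type} [Field K] [NumberField K]

/-- `F` is bihomogeneous of bidegree `(q, r)` in two pairs of variables -/
def IsForm (F : MvPolynomial (Fin 2 ⊕ Fin 2) (𝓞 K)) (q r : ℕ) : Prop :=
  F.IsWeightedHomogeneous (Sum.elim (fun _ : Fin 2 => ((1, 0) : ℕ × ℕ))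
      (fun _ : Fin 2 => ((0, 1) : ℕ × ℕ))) (q, r)

/-- the value of `F` at `(s, t)` -/
noncomputable def value (F : MvPolynomial (Fin 2 ⊕ Fin 2) (𝓞 K)) (s t : Fin 2 → K) : K :=
  MvPolynomial.aeval (Sum.elim s t) F

/-- the local height of the divisor `F = 0` of bidegree `(q, r)` at the prime `v` and the point
`(s, t)` -/
noncomputable def localHeight (F : MvPolynomial (Fin 2 ⊕ Fin 2) (𝓞 K)) (q r : ℕ)
    (v : HeightOneSpectrum (𝓞 K)) (s t : Fin 2 → K) : ℝ :=
  -Real.log (FinitePlace.mk v (value F s t) /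
    (max (FinitePlace.mk v (s 0)) (FinitePlace.mk v (s 1)) ^ q *
      max (FinitePlace.mk v (t 0)) (FinitePlace.mk v (t 1)) ^ r))

/-- the truncated counting function `N^(1)_D` -/
noncomputable def counting (F : MvPolynomial (Fin 2 ⊕ Fin 2) (𝓞 K)) (q r : ℕ)
    (s t : Fin 2 → K) : ℝ :=
  ∑ᶠ v : HeightOneSpectrum (𝓞 K),
    min (Real.log (Ideal.absNorm v.asIdeal : ℝ)) (localHeight F q r v s t)

/-- the point `(P_0(x) : P_1(x))` -/
noncomputable def point (P : Fin 2 → (𝓞 K)[X]) (x : ℚ) : Fin 2 → K :=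
  fun j => ((P j).map (algebraMap (𝓞 K) K)).eval (x : K)

/-- `x ↦ (P_0(x) : P_1(x))` is a map of degree `a` from the line to itself, possibly constant -/
structure IsMap (P : Fin 2 → (𝓞 K)[X]) (a : ℕ) : Prop where
  degree : ∀ j, (P j).natDegree ≤ a
  infinity : ∃ j, (P j).natDegree = a
  zeros : Ideal.span (Set.range fun j => (P j).map (algebraMap (𝓞 K) K)) = ⊤

/-- The `f_i` are essentially different polynomials with integral coefficients, irreducible over `ℚ`,
of degree `d_i`, such that some zero of `f_i` is a zero of `G`; or `f_i = 1`, `d_i = 1` stands for the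
point `∞`, if `G`, as a form of degree `n`, vanishes there. -/
structure Factors {m : ℕ} (G : (𝓞 K)[X]) (n : ℕ) (f : Fin m → ℤ[X]) (d : Fin m → ℕ) : Prop where
  factors : ∀ i,
    (Irreducible ((f i).map (Int.castRingHom ℚ)) ∧ d i = (f i).natDegree ∧
      ¬ IsCoprime ((f i).map (Int.castRingHom K)) (G.map (algebraMap (𝓞 K) K))) ∨
    (f i = 1 ∧ d i = 1 ∧ G.natDegree < n)
  distinct : Squarefree ((∏ i, f i).map (Int.castRingHom ℚ))
  once : ∑ i, d i ≤ (∏ i, f i).natDegree + 1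

/-- the number of the factors, those of degree at least three counted twice -/
def weight {m : ℕ} (d : Fin m → ℕ) : ℕ := ∑ i, if d i ≤ 2 then 1 else 2

/-- `θ = 2 / weight d` if at least three of the `d_i` are `1`; `θ = c / g` if there are `g` sets of
factors of total degree at least three each, such that every factor is in at most `c` of them -/
def Exponent {m : ℕ} (d : Fin m → ℕ) (θ : ℝ) : Prop :=
  (3 ≤ (univ.filter (fun i => d i = 1)).card ∧ θ = 2 / (weight d : ℝ)) ∨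
  ∃ (g c : ℕ) (B : Fin g → Finset (Fin m)), 1 ≤ g ∧ (∀ b, 3 ≤ ∑ i ∈ B b, d i) ∧
      (∀ i, (univ.filter (fun b => i ∈ B b)).card ≤ c) ∧ θ = (c : ℝ) / g

/-- for `R ≥ 1` the set `S R` has at most `C R ^ θ (1 + log R) ^ e` elements -/
def Bound {α : Type} (S : ℝ → Set α) (θ : ℝ) : Prop :=
  ∃ (C : ℝ) (e : ℕ), 0 < C ∧ ∀ R : ℝ, 1 ≤ R →
    (S R).Finite ∧ ((S R).ncard : ℝ) ≤ C * R ^ θ * (1 + Real.log R) ^ e

/-- the rational parameters `x` for which the point `P = (A(x), B(x))` of the curve is not on `D` and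
`N^(1)_D(P) ≤ log R` -/
def Parameters (F : MvPolynomial (Fin 2 ⊕ Fin 2) (𝓞 K)) (q r : ℕ) (A B : Fin 2 → (𝓞 K)[X])
    (R : ℝ) : Set ℚ :=
  {x | value F (point A x) (point B x) ≠ 0 ∧
    counting F q r (point A x) (point B x) ≤ Real.log R}

/-- the form `∑ G_i U ^ i V ^ (n - i)` -/
noncomputable def member (G : (𝓞 K)[X]) (n : ℕ) (U V : MvPolynomial (Fin 2 ⊕ Fin 2) (𝓞 K)) :
    MvPolynomial (Fin 2 ⊕ Fin 2) (𝓞 K) :=
  ∑ i ∈ range (n + 1), MvPolynomial.C (G.coeff i) * U ^ i * V ^ (n - i)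

/-- the curves `member G n U V = 0` are contained in `D`: the form divides, up to a constant, a power
of `F` -/
def Contains (F : MvPolynomial (Fin 2 ⊕ Fin 2) (𝓞 K)) (G : (𝓞 K)[X]) (n : ℕ)
    (U V : MvPolynomial (Fin 2 ⊕ Fin 2) (𝓞 K)) : Prop :=
  G.natDegree ≤ n ∧ ∃ (E : MvPolynomial (Fin 2 ⊕ Fin 2) (𝓞 K)) (c : 𝓞 K) (k : ℕ), c ≠ 0 ∧
    member G n U V * E = MvPolynomial.C c * F ^ k

/-- the rational `x` such that the member `U = x V` of the pencil contains a point
`P = (s, t)`, of whatever height, over `K`, not on `D` and not on `V = 0`, with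
`N^(1)_D(P) ≤ log R` -/
def Members (F : MvPolynomial (Fin 2 ⊕ Fin 2) (𝓞 K)) (q r : ℕ)
    (U V : MvPolynomial (Fin 2 ⊕ Fin 2) (𝓞 K)) (R : ℝ) : Set ℚ :=
  {x | ∃ s t : Fin 2 → K, s ≠ 0 ∧ t ≠ 0 ∧ value F s t ≠ 0 ∧ value V s t ≠ 0 ∧
    value U s t = (x : K) * value V s t ∧ counting F q r s t ≤ Real.log R}

/-- the pairs `(x, y)` of rational numbers such that `P = ([x : 1], [y : 1])` is not on `D` and
`N^(1)_D(P) ≤ log R` -/
def Points (F : MvPolynomial (Fin 2 ⊕ Fin 2) (𝓞 K)) (q r : ℕ) (R : ℝ) : Set (ℚ × ℚ) :=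
  {z | value F ![(z.1 : K), 1] ![(z.2 : K), 1] ≠ 0 ∧
    counting F q r ![(z.1 : K), 1] ![(z.2 : K), 1] ≤ Real.log R}

omit [NumberField K] in
theorem exponent_cnt {m : ℕ} {G : (𝓞 K)[X]} {n : ℕ} {f : Fin m → ℤ[X]} {d : Fin m → ℕ}
    (h : Factors G n f d) {θ : ℝ} (hθ : Exponent d θ) : X100.Nt.Cnt f d θ := by
  have hd1 : ∀ i, (f i).natDegree ≤ d i ∧ 1 ≤ d i := by
    intro i
    rcases h.factors i with ⟨h1, h2, -⟩ | ⟨h1, h2, -⟩
    · refine ⟨h2.ge, ?_⟩
      rw [h2, ← natDegree_map_eq_of_injective (f := Int.castRingHom ℚ) Int.cast_injective]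
      exact h1.natDegree_pos
    · rw [h1, h2, natDegree_one]
      omega
  rcases hθ with ⟨h3, rfl⟩ | ⟨g, c, B, hg, hB, hc, rfl⟩
  · exact X100.Nt.cnt_mixed f d (fun i => (hd1 i).1) (fun i => (hd1 i).2) h.distinct h.once h3
  · have hne : Nonempty (Fin g) := Fin.pos_iff_nonempty.1 hg
    have h1 := X100.Nt.cnt_blocks (β := Fin g) f d (fun i => (hd1 i).1) h.distinct h.once B hB c hc
    rwa [Fintype.card_fin] at h1

theorem members_bound {q r a b n m : ℕ} (F U V : MvPolynomial (Fin 2 ⊕ Fin 2) (𝓞 K))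
    (hF : IsForm F q r) (hU : IsForm U a b) (hV : IsForm V a b) (G : (𝓞 K)[X])
    (hG : Contains F G n U V) (f : Fin m → ℤ[X]) (d : Fin m → ℕ) (h : Factors G n f d) (θ : ℝ)
    (hθ : Exponent d θ) : Bound (Members F q r U V) θ := by
  obtain ⟨hGn, E, c, k, hc, hE⟩ := hG
  obtain ⟨C, e, hC, H⟩ := X100.NK.PP.pencil_main F U V hF hU hV G n hGn E c hc k hE f d h.factors
    (exponent_cnt h hθ)
  refine ⟨C, e, hC, fun R hR => H R hR _ ?_⟩
  rintro x ⟨s, t, hs, ht, h1, -, h2, h3⟩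
  exact ⟨s, t, hs, ht, h1, h2, h3⟩

omit [NumberField K] in
theorem form_X (i : Fin 2) : IsForm (MvPolynomial.X (Sum.inl i) :
    MvPolynomial (Fin 2 ⊕ Fin 2) (𝓞 K)) 1 0 := MvPolynomial.isWeightedHomogeneous_X _ _ _

omit [NumberField K] in
theorem form_Y (i : Fin 2) : IsForm (MvPolynomial.X (Sum.inr i) :
    MvPolynomial (Fin 2 ⊕ Fin 2) (𝓞 K)) 0 1 := MvPolynomial.isWeightedHomogeneous_X _ _ _

omit [NumberField K] in
theorem value_X (i : Fin 2) (s t : Fin 2 → K) :
    value (MvPolynomial.X (Sum.inl i)) s t = s i := by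
  rw [value, MvPolynomial.aeval_X]
  rfl

omit [NumberField K] in
theorem value_Y (i : Fin 2) (s t : Fin 2 → K) :
    value (MvPolynomial.X (Sum.inr i)) s t = t i := by
  rw [value, MvPolynomial.aeval_X]
  rfl

theorem product {α β : Type} (S1 : ℝ → Set α) (S2 : ℝ → Set β) (S : ℝ → Set (α × β))
    (hS : ∀ R, S R ⊆ S1 R ×ˢ S2 R) {θ1 θ2 : ℝ} (h1 : Bound S1 θ1) (h2 : Bound S2 θ2) :
    Bound S (θ1 + θ2) := by
  obtain ⟨C1, e1, hC1, H1⟩ := h1
  obtain ⟨C2, e2, hC2, H2⟩ := h2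
  refine ⟨C1 * C2, e1 + e2, mul_pos hC1 hC2, fun R hR => ?_⟩
  obtain ⟨f1, g1⟩ := H1 R hR
  obtain ⟨f2, g2⟩ := H2 R hR
  have hR0 : 0 < R := by linarith
  have hl := Real.log_nonneg hR
  refine ⟨(f1.prod f2).subset (hS R), ?_⟩
  have h3 : ((S R).ncard : ℝ) ≤ ((S1 R).ncard : ℝ) * ((S2 R).ncard : ℝ) := by
    rw [← Nat.cast_mul, ← Set.ncard_prod]
    exact_mod_cast Set.ncard_le_ncard (hS R) (f1.prod f2)
  refine h3.trans ((mul_le_mul g1 g2 (Nat.cast_nonneg _) (by positivity)).trans (le_of_eq ?_))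
  rw [Real.rpow_add hR0, pow_add]
  ring

/-- **Points with small truncated counting function, of whatever height, on the product of two
lines.** Let `K` be a number field and `D : F = 0` a divisor of bidegree `(q, r)`.
(1) For a curve `x ↦ (A(x), B(x))` and essentially different `f_i` which have zeros over `D`, the
rational `x` for which the point is not on `D` and `N^(1)_D ≤ log R` are at most
`C R ^ θ (1 + log R) ^ e` in number, for each `θ` as in `Exponent`.
(2) Let `U`, `V` be forms of the same bidegree such that the members of the pencil which belong to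
the zeros of a form `G` of degree `n` are contained in `D`, and let the `f_i` have zeros in common
with `G`. Then all the points `P` over `K` off `D` and off `V = 0`, of whatever height, with
`N^(1)_D(P) ≤ log R` and `U(P) / V(P)` rational (no condition if `K = ℚ`) lie on at most
`C R ^ θ (1 + log R) ^ e` members `U = x V` of the pencil.
(3) If `D` contains fibres of both projections, `(G_1, f_1, d_1, θ_1)` and `(G_2, f_2, d_2, θ_2)`
being as in (2), then at most `C R ^ (θ_1 + θ_2) (1 + log R) ^ e` pairs `(x, y)` of rational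
numbers, of whatever height, are not on `D` and have `N^(1)_D ≤ log R`. -/
theorem result (K : Type) [Field K] [NumberField K] (q r : ℕ)
    (F : MvPolynomial (Fin 2 ⊕ Fin 2) (𝓞 K)) (hF : IsForm F q r) :
    (∀ (a b m : ℕ) (A B : Fin 2 → (𝓞 K)[X]) (f : Fin m → ℤ[X]) (d : Fin m → ℕ), IsMap A a →
      IsMap B b → Factors (MvPolynomial.aeval (Sum.elim A B) F) (a * q + b * r) f d →
      ∀ θ : ℝ, Exponent d θ → Bound (Parameters F q r A B) θ) ∧
    (∀ (a b n m : ℕ) (U V : MvPolynomial (Fin 2 ⊕ Fin 2) (𝓞 K)) (G : (𝓞 K)[X])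
      (f : Fin m → ℤ[X]) (d : Fin m → ℕ), IsForm U a b → IsForm V a b → Contains F G n U V →
      Factors G n f d → ∀ θ : ℝ, Exponent d θ → Bound (Members F q r U V) θ) ∧
    (∀ (n₁ n₂ m₁ m₂ : ℕ) (G₁ G₂ : (𝓞 K)[X]) (f₁ : Fin m₁ → ℤ[X]) (d₁ : Fin m₁ → ℕ)
      (f₂ : Fin m₂ → ℤ[X]) (d₂ : Fin m₂ → ℕ),
      Contains F G₁ n₁ (MvPolynomial.X (Sum.inl 0)) (MvPolynomial.X (Sum.inl 1)) →
      Contains F G₂ n₂ (MvPolynomial.X (Sum.inr 0)) (MvPolynomial.X (Sum.inr 1)) →
      Factors G₁ n₁ f₁ d₁ → Factors G₂ n₂ f₂ d₂ → ∀ θ₁ θ₂ : ℝ, Exponent d₁ θ₁ →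
      Exponent d₂ θ₂ → Bound (Points F q r) (θ₁ + θ₂)) := by
  refine ⟨?_, ?_, ?_⟩
  · intro a b m A B f d hA hB h θ hθ
    obtain ⟨C, e, hC, H⟩ := X100.NK.PP.main F hF A B hA.degree hB.degree hA.infinity hB.infinity
      hA.zeros hB.zeros f d h.factors (exponent_cnt h hθ)
    exact ⟨C, e, hC, fun R hR => H R hR _ fun x hx => hx⟩
  · intro a b n m U V G f d hU hV hG h θ hθ
    exact members_bound F U V hF hU hV G hG f d h θ hθ
  · intro n₁ n₂ m₁ m₂ G₁ G₂ f₁ d₁ f₂ d₂ hG₁ hG₂ h₁ h₂ θ₁ θ₂ hθ₁ hθ₂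
    refine product _ _ _ ?_ (members_bound F _ _ hF (form_X 0) (form_X 1) G₁ hG₁ f₁ d₁ h₁ θ₁ hθ₁)
      (members_bound F _ _ hF (form_Y 0) (form_Y 1) G₂ hG₂ f₂ d₂ h₂ θ₂ hθ₂)
    rintro R ⟨x, y⟩ ⟨hz1, hz2⟩
    have n1 : ∀ x : ℚ, (![(x : K), 1] : Fin 2 → K) ≠ 0 := fun x h =>
      one_ne_zero (congrFun h 1)
    refine ⟨⟨![(x : K), 1], ![(y : K), 1], n1 x, n1 y, hz1, ?_, ?_, hz2⟩,
      ⟨![(x : K), 1], ![(y : K), 1], n1 x, n1 y, hz1, ?_, ?_, hz2⟩⟩
    · rw [value_X]
      exact one_ne_zero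
    · rw [value_X, value_X]
      simp
    · rw [value_Y]
      exact one_ne_zero
    · rw [value_Y, value_Y]
      simp

end Pool.Agent.Results.MP_542436_nt.RationalCurvesAllHeights
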