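import Mathlib
import Pool.Agent.X323.PP.Dense

set_option autoImplicit false

/-!
# The truncated inequality on `ℙ¹ × ℙ¹`: tangent cosets in the exceptional set

`K` is a number field and `D` a divisor on `ℙ¹ × ℙ¹` over `K` which contains the fibres over `0` and
`∞` of both projections; the rest of `D` is the curve `F = 0` of bidegree `(d 0, d 1)`, so that `D` has
bidegree `(d 0 + 2, d 1 + 2)`. (Two other `K`-rational fibres for each projection can be moved to
these.) Let `G = 0` be a curve outside of which the inequality of the conjecture holds. Then `G F = 0`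
contains the cosets of the one-dimensional subtori `(t ^ a, t ^ b)` with `ε (|a| + |b|) < [K : ℚ]`
which are tangent to `F = 0` at a `K`-rational point. If `F = 0` has a `K`-rational double point off
the four fibres (for example because two components of `D` cross there), the degree of `G` is at
least a constant times `([K : ℚ] / ε) ^ 3`. If `K = ℚ` and `F = 0` is an irreducible curve with dense
rational points, then no `G` serves all `ε`.
-/

namespace Pool.Agent.Results.MP_542436_nt.RationalDoublePoints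

open NumberField IsDedekindDomain Height MvPolynomial

/-- The variables `(l, 0)`, `(l, 1)` are the homogeneous coordinates on the factor `l` of
`ℙ¹ × ℙ¹`; the form `F` is bihomogeneous of bidegree `d`. -/
def Bihomogeneous {K : Type} [Field K] (F : MvPolynomial (Fin 2 × Fin 2) K) (d : Fin 2 → ℕ) :
    Prop :=
  ∀ m, coeff m F ≠ 0 → ∀ l, m (l, 0) + m (l, 1) = d l

section
variable {K : Type} [Field K] [NumberField K]

/-- The local height at the prime `v` of the divisor `B = 0` of bidegree `q` at the point `x`,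
`-log (‖B(x)‖ / ∏ l, max_i ‖x (l, i)‖ ^ q l)`. -/
noncomputable def localHeight (v : HeightOneSpectrum (𝓞 K)) (q : Fin 2 → ℕ)
    (B : MvPolynomial (Fin 2 × Fin 2) K) (x : Fin 2 × Fin 2 → K) : ℝ :=
  -Real.log (FinitePlace.mk v (eval x B) /
    ∏ l, max (FinitePlace.mk v (x (l, 0))) (FinitePlace.mk v (x (l, 1))) ^ q l)

/-- The truncated counting function of the divisor `B = 0` of bidegree `q`, a sum over all primes. -/
noncomputable def counting (q : Fin 2 → ℕ) (B : MvPolynomial (Fin 2 × Fin 2) K)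
    (x : Fin 2 × Fin 2 → K) : ℝ :=
  ∑ᶠ v : HeightOneSpectrum (𝓞 K),
    min (Real.log (Ideal.absNorm v.asIdeal : ℝ)) (localHeight v q B x)

/-- The height `h_K`, relative to `K`, of the component of the point `x` on the factor `l`. -/
noncomputable def hK (l : Fin 2) (x : Fin 2 × Fin 2 → K) : ℝ := logHeight ![x (l, 0), x (l, 1)]

/-- The inequality of the conjecture, `H_D(x) - ε (h(x_0) + h(x_1)) - C ≤ N^(1)_D(x)` with
`h = h_K / [K : ℚ]`, for all points `x` over `K` off `D` and off `G = 0`. Here `D` is the divisor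
`B = 0` of bidegree `q` and `H_D(x) = (q 0 - 2) h_K(x_0) + (q 1 - 2) h_K(x_1)`. -/
def Inequality (q : Fin 2 → ℕ) (B : MvPolynomial (Fin 2 × Fin 2) K) (ε C : ℝ)
    (G : MvPolynomial (Fin 2 × Fin 2) K) : Prop :=
  ∀ x : Fin 2 × Fin 2 → K, eval x B ≠ 0 → eval x G ≠ 0 →
    (∑ l, ((q l : ℝ) - 2) * hK l x) - ε * (∑ l, hK l x / Module.finrank ℚ K) - C ≤ counting q B x

/-- The coset `t ↦ (u p * t ^ κ p)` of a one-dimensional subtorus of `ℙ¹ × ℙ¹` passes for `t = 1`
through the point `u` of `F = 0`, off the fibres over `0` and `∞`, and is tangent to `F = 0` there (or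
`u` is a multiple point of `F = 0`): the derivative at `t = 1` of `F(u p * t ^ κ p)` is zero. On each
factor one of the two exponents is zero. -/
structure Tangent (F : MvPolynomial (Fin 2 × Fin 2) K) (u : Fin 2 × Fin 2 → K)
    (κ : Fin 2 × Fin 2 → ℕ) : Prop where
  off : ∀ p, u p ≠ 0
  on : eval u F = 0
  tangent : ∑ p, (κ p : K) * u p * eval u (pderiv p F) = 0
  zero : ∀ l, κ (l, 0) = 0 ∨ κ (l, 1) = 0

/-- `u` is a double point of `F = 0` off the fibres over `0` and `∞`. -/
structure DoublePoint (F : MvPolynomial (Fin 2 × Fin 2) K) (u : Fin 2 × Fin 2 → K) : Prop where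
  off : ∀ p, u p ≠ 0
  on : eval u F = 0
  double : ∀ p, eval u (pderiv p F) = 0

theorem specialise {d : Fin 2 → ℕ} {F : MvPolynomial (Fin 2 × Fin 2) K} {ε C : ℝ}
    {G : MvPolynomial (Fin 2 × Fin 2) K}
    (h : Inequality (fun l => d l + 2) ((∏ p, X p) * F) ε C G) :
    ∀ x : Fin 2 × Fin 2 → K, (∀ p, x p ≠ 0) → eval x F ≠ 0 → eval x G ≠ 0 →
      ∑ l, (d l : ℝ) * logHeight ![x (l, 0), x (l, 1)] -
        ε * (∑ l, logHeight ![x (l, 0), x (l, 1)] / Module.finrank ℚ K) - C ≤
        ∑ᶠ v : HeightOneSpectrum (𝓞 K), min (Pool.Agent.W231.V.ell v)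
          (Pool.Agent.X323.PP.lam2 v d F x) := by
  intro x hx hF hG
  have hB : eval x ((∏ p, X p) * F) = (∏ p, x p) * eval x F := by
    rw [map_mul, map_prod]
    simp only [eval_X]
  have h1 := h x (by
    rw [hB]
    exact mul_ne_zero (Finset.prod_ne_zero_iff.2 fun p _ => hx p) hF) hG
  have h2 : counting (fun l => d l + 2) ((∏ p, X p) * F) x =
      ∑ᶠ v : HeightOneSpectrum (𝓞 K), min (Pool.Agent.W231.V.ell v)
          (Pool.Agent.X323.PP.lam2 v d F x) := by
    unfold counting localHeight Pool.Agent.X323.PP.lam2 Pool.Agent.W231.V.ell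
    rw [hB]
  rw [h2] at h1
  have h3 : ∑ l, (((fun l => d l + 2 : Fin 2 → ℕ) l : ℝ) - 2) * hK l x =
      ∑ l, (d l : ℝ) * logHeight ![x (l, 0), x (l, 1)] := by
    refine Finset.sum_congr rfl fun l _ => ?_
    unfold hK
    push_cast
    ring
  rw [h3] at h1
  exact h1

open Pool.Agent.X323.TV Pool.Agent.X323.PP in
/-- the degree of the exceptional curve -/
theorem degree {d : Fin 2 → ℕ} {F : MvPolynomial (Fin 2 × Fin 2) K} (hF : Bihomogeneous F d)
    (hF0 : F ≠ 0) {δ : Fin 2 → ℕ} {G : MvPolynomial (Fin 2 × Fin 2) K} (hG : Bihomogeneous G δ)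
    (hG0 : G ≠ 0) {ε C : ℝ} (h : Inequality (fun l => d l + 2) ((∏ p, X p) * F) ε C G)
    {u : Fin 2 × Fin 2 → K} (hu : DoublePoint F u) {m : ℕ} (hm : ε * m < Module.finrank ℚ K) :
    ∑ n ∈ Finset.Icc 2 m, n * n.totient ≤ δ 0 + δ 1 + (d 0 + d 1) := by
  classical
  have hH : BiHom (G * F) (fun l => δ l + d l) := by
    intro s hs l
    rw [← mem_support_iff] at hs
    obtain ⟨a, ha, b, hb, rfl⟩ := Finset.mem_add.1 (support_mul G F hs)
    have h1 := hG a (mem_support_iff.1 ha) l
    have h2 := hF b (mem_support_iff.1 hb) l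
    simp only [Finsupp.add_apply]
    omega
  have hH0 : G * F ≠ 0 := mul_ne_zero hG0 hF0
  -- the pairs
  set T : Finset (Σ _ : ℕ, ℕ) := (Finset.Icc 2 m).sigma
    (fun n => (Finset.range n).filter (fun a => n.Coprime a)) with hT
  have hmem : ∀ p ∈ T, 1 ≤ p.2 ∧ p.2 < p.1 ∧ p.1 ≤ m ∧ p.1.Coprime p.2 := by
    rintro ⟨b, a⟩ hp
    rw [hT, Finset.mem_sigma, Finset.mem_Icc, Finset.mem_filter, Finset.mem_range] at hp
    obtain ⟨⟨h1, h2⟩, h3, h4⟩ := hp
    refine ⟨?_, h3, h2, h4⟩
    simp only at h1 h4 ⊢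
    by_contra h5
    have h6 : a = 0 := by omega
    rw [h6, Nat.coprime_zero_right] at h4
    omega
  have hsum : ∑ p ∈ T, p.1 = ∑ n ∈ Finset.Icc 2 m, n * n.totient := by
    rw [hT, Finset.sum_sigma]
    refine Finset.sum_congr rfl fun b _ => ?_
    rw [Finset.sum_const, smul_eq_mul, mul_comm, Nat.totient_eq_card_coprime]
  set k : (Σ _ : ℕ, ℕ) → Fin 2 → ℕ := fun p l => if l = 0 then p.2 else p.1 - p.2 with hk
  have k0 : ∀ p, k p 0 = p.2 := fun p => by simp [hk]
  have k1 : ∀ p, k p 1 = p.1 - p.2 := fun p => by simp [hk]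
  have hcop : ∀ p ∈ T, Nat.Coprime (k p 0) (k p 1) := by
    intro p hp
    have h1 := hmem p hp
    rw [k0, k1, Nat.coprime_sub_self_right h1.2.1.le]
    exact h1.2.2.2.symm
  have hne : ∀ p ∈ T, ∀ q ∈ T, p ≠ q → k p 0 * k q 1 ≠ k p 1 * k q 0 := by
    rintro ⟨b, a⟩ hp ⟨b', a'⟩ hq hne heq
    apply hne
    have h1 := hmem _ hp
    have h2 := hmem _ hq
    rw [k0, k1, k0, k1] at heq
    simp only at h1 h2 heq
    have h0 : a * b' = b * a' := by
      obtain ⟨c, rfl⟩ : ∃ c, b = a + c := ⟨b - a, by omega⟩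
      obtain ⟨c', rfl⟩ : ∃ c', b' = a' + c' := ⟨b' - a', by omega⟩
      rw [Nat.add_sub_cancel_left, Nat.add_sub_cancel_left] at heq
      nlinarith
    have h3 : b = b' := by
      apply Nat.dvd_antisymm
      · refine Nat.Coprime.dvd_of_dvd_mul_left h1.2.2.2 ?_
        rw [h0]
        exact dvd_mul_right _ _
      · refine Nat.Coprime.dvd_of_dvd_mul_left h2.2.2.2 ?_
        rw [mul_comm a' b, ← h0]
        exact dvd_mul_left _ _
    subst h3
    have h4 : a = a' := by
      rw [mul_comm a b] at h0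
      exact Nat.eq_of_mul_eq_mul_left (by omega) h0
    rw [h4]
  have hv : ∀ p ∈ T, onCurve u (fun z => if z.2 = 0 then k p z.1 else 0) (G * F) = 0 := by
    intro p hp
    have h1 := hmem p hp
    refine core hF (specialise h) hu.off (fun l => Or.inr (by simp)) hu.on ?_ ?_
    · refine Finset.sum_eq_zero fun p _ => ?_
      rw [hu.double, mul_zero]
    · have h2 : ((∑ l, mx (fun z => if z.2 = 0 then k p z.1 else 0) l : ℕ)) = p.1 := by
        rw [Fin.sum_univ_two]
        unfold mx
        simp only [if_true, Fin.isValue, one_ne_zero, if_false, k0, k1]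
        omega
      rw [h2]
      have h3 : (p.1 : ℝ) ≤ m := by exact_mod_cast h1.2.2.1
      have h5 : (0 : ℝ) < Module.finrank ℚ K := by exact_mod_cast Module.finrank_pos
      rcases le_or_gt ε 0 with h4 | h4
      · have : ε * (p.1 : ℝ) ≤ 0 := mul_nonpos_of_nonpos_of_nonneg h4 (Nat.cast_nonneg _)
        linarith
      · have := mul_le_mul_of_nonneg_left h3 h4.le
        linarith
  have d0 := degl hH hH0 hu.off (i := 0) (j := 1) (by decide) T k (by
    intro p hp
    have h1 := hmem p hp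
    rw [k1]
    omega) hcop hne hv
  have d1 := degl hH hH0 hu.off (i := 1) (j := 0) (by decide) T k (by
    intro p hp
    have h1 := hmem p hp
    rw [k0]
    omega) (fun p hp => (hcop p hp).symm) (by
    intro p hp q hq hpq heq
    refine hne p hp q hq hpq ?_
    exact heq.symm) hv
  rw [← hsum]
  have h5 : ∑ p ∈ T, p.1 = ∑ p ∈ T, k p 1 + ∑ p ∈ T, k p 0 := by
    rw [← Finset.sum_add_distrib]
    refine Finset.sum_congr rfl fun p hp => ?_
    have h1 := hmem p hp
    rw [k0, k1]
    omega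
  rw [h5]
  have d0' : ∑ p ∈ T, k p 1 ≤ δ 0 + d 0 := d0
  have d1' : ∑ p ∈ T, k p 0 ≤ δ 1 + d 1 := d1
  omega

end

open Pool.Agent.X323.TV Pool.Agent.X323.PP in
/-- (1), (2): Let `K` be a number field, `F ≠ 0` a form of bidegree `d` over `K`, and `D` the divisor
of bidegree `(d 0 + 2, d 1 + 2)` on `ℙ¹ × ℙ¹` which consists of the fibres over `0` and `∞` of both
projections and of `F = 0`. Let `G ≠ 0` be a form of bidegree `δ` and suppose that
`H_D(x) - ε (h(x_0) + h(x_1)) - C ≤ N^(1)_D(x)` for all `K`-rational points `x` off `D` and off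
`G = 0`. Then
(1) `G F` vanishes on every coset of a one-dimensional subtorus which is tangent to `F = 0` at a
`K`-rational point and has exponents `a`, `b` with `ε (|a| + |b|) < [K : ℚ]`;
(2) if `F = 0` has a `K`-rational double point off the fibres over `0` and `∞`, then
`δ 0 + δ 1 + d 0 + d 1 ≥ ∑_{2 ≤ n ≤ m} n φ(n)` for all `m` with `ε m < [K : ℚ]`.
(3) Let `K = ℚ` and let `F` be irreducible, of bidegree at least `(1, 1)`, such that `F = 0` contains
none of the four crossing points of the fibres over `0` and `∞`, and such that its rational points off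
these fibres are Zariski dense in it. Then for every `G ≠ 0` there is an `ε > 0` for which the
inequality fails (for every `C`). -/
theorem result :
    (∀ (K : Type) [Field K] [NumberField K] (d : Fin 2 → ℕ) (F : MvPolynomial (Fin 2 × Fin 2) K),
      Bihomogeneous F d → F ≠ 0 → ∀ (δ : Fin 2 → ℕ) (G : MvPolynomial (Fin 2 × Fin 2) K),
      Bihomogeneous G δ → G ≠ 0 → ∀ ε C : ℝ,
      Inequality (fun l => d l + 2) ((∏ p, X p) * F) ε C G →
      (∀ (u : Fin 2 × Fin 2 → K) (κ : Fin 2 × Fin 2 → ℕ), Tangent F u κ →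
        ε * (∑ l, max (κ (l, 0)) (κ (l, 1)) : ℕ) < Module.finrank ℚ K →
        ∀ t : K, eval (fun p => u p * t ^ κ p) (G * F) = 0) ∧
      ∀ u : Fin 2 × Fin 2 → K, DoublePoint F u → ∀ m : ℕ, ε * m < Module.finrank ℚ K →
        ∑ n ∈ Finset.Icc 2 m, n * n.totient ≤ δ 0 + δ 1 + (d 0 + d 1)) ∧
    (∀ (d : Fin 2 → ℕ) (F : MvPolynomial (Fin 2 × Fin 2) ℚ), Bihomogeneous F d → (∀ l, 1 ≤ d l) →
      Irreducible F →
      (∀ c : Fin 2 → Fin 2, eval (fun p => if p.2 = c p.1 then (1 : ℚ) else 0) F ≠ 0) →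
      (∀ P : MvPolynomial (Fin 2 × Fin 2) ℚ,
        (∀ u : Fin 2 × Fin 2 → ℚ, (∀ p, u p ≠ 0) → eval u F = 0 → eval u P = 0) → F ∣ P) →
      ∀ G : MvPolynomial (Fin 2 × Fin 2) ℚ, G ≠ 0 → ∃ ε : ℝ, 0 < ε ∧ ∀ C : ℝ,
        ¬ Inequality (fun l => d l + 2) ((∏ p, X p) * F) ε C G) := by
  refine ⟨?_, ?_⟩
  · intro K _ _ d F hF hF0 δ G hG hG0 ε C h
    refine ⟨?_, ?_⟩
    · intro u κ ht hκ t
      have h1 := core hF (specialise h) ht.off ht.zero ht.on ht.tangent hκ
      rw [← eval_onCurve, h1, Polynomial.eval_zero]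
    · intro u hu m hm
      exact degree hF hF0 hG hG0 h hu hm
  · intro d F hF hd hirr hcorner hdense G hG0
    obtain ⟨ε, hε, h⟩ := dense hF hd hirr hcorner hdense hG0
    exact ⟨ε, hε, fun C hC => h C (specialise hC)⟩

end Pool.Agent.Results.MP_542436_nt.RationalDoublePoints
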